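import Pool.Agent.K.MP_6fabb2_lc.C0

open Pool.Agent.P.MP_6fabb2_lc

theorem Pool.Agent.Results.MP_6fabb2_lc.OmegaSeparation.result :
    ∃ S : Set (Set ℕ), IsRCA0 S ∧ RRT22 S ∧ ¬ HT22 S :=
  main
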